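import Mathlib

set_option autoImplicit false

namespace Pool.Agent.Helper80.Tok

/-- The token graph of the tokens placed so far: two tokens are adjacent when their points are at
distance less than one. -/
def tokenGraph (h : List ℝ) : SimpleGraph (Fin h.length) where
  Adj i j := i ≠ j ∧ |h.get i - h.get j| < 1
  symm := ⟨fun i j hij => ⟨hij.1.symm, by rw [abs_sub_comm]; exact hij.2⟩⟩
  loopless := ⟨fun i hi => hi.1 rfl⟩

/-- Colour of token `i`; `h` lists the points of the tokens, the newest token first. A strategy
`A` gives the colour of the newest token as a function of the points of all tokens so far. -/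
def colour (A : List ℝ → ℕ) (h : List ℝ) (i : Fin h.length) : ℕ := A (h.drop i)

/-- Algorithm has a strategy which, against every play of Spoiler whose token graph is
`w`-colourable, colours properly and uses at most `k` distinct colours. -/
def Achieves (w k : ℕ) : Prop :=
  ∃ A : List ℝ → ℕ, ∀ h : List ℝ, (tokenGraph h).Colorable w →
    (∀ i j, (tokenGraph h).Adj i j → colour A h i ≠ colour A h j) ∧
      (Finset.univ.image (colour A h)).card ≤ k

/-- State of the parity pointer game: tokens per edge, level per site, colours of the two
parities. Site `z` has the two edges `z - 1` and `z`. -/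
structure St where
  n : ℕ → ℕ
  M : ℕ → ℕ
  k : Bool → ℕ

def St.init : St := ⟨fun _ => 0, fun _ => 0, fun _ => 0⟩

/-- parity of an edge -/
def par (e : ℕ) : Bool := decide (e % 2 = 1)

/-- The token at site `z` goes to the left edge `z - 1`. -/
def playL (s : St) (z : ℕ) : St where
  n := Function.update s.n (z - 1) (s.n (z - 1) + 1)
  M := fun y => if y = z then s.M z + 1 else if y + 1 = z then max (s.M y) (s.n (z - 1) + 1)
    else s.M y
  k := s.k

/-- The token at site `z` goes to the right edge `z`. -/
def playR (s : St) (z : ℕ) : St where
  n := Function.update s.n z (s.n z + 1)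
  M := fun y => if y = z then s.M z + 1 else if y = z + 1 then max (s.M y) (s.n z + 1)
    else s.M y
  k := s.k

/-- One more colour of parity `b`. -/
def addCol (s : St) (b : Bool) : St where
  n := s.n
  M := s.M
  k := Function.update s.k b (s.k b + 1)

/-- The token at site `z` gets a new colour and goes left (`d = true`) or right. -/
def playN (s : St) (z : ℕ) (d : Bool) : St :=
  if d then addCol (playL s z) (par (z - 1)) else addCol (playR s z) (par z)

/-- Spoiler wins the parity pointer game on the sites `1, …, S` with width `w` against `K`
colours. -/
inductive SpWin (w K S : ℕ) : St → Prop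
  | step (s : St) (z : ℕ) (d : Bool) (h1 : 1 ≤ z) (hS : z ≤ S) (hz : s.M z < w)
      (hL : s.n (z - 1) < s.k (par (z - 1)) → SpWin w K S (playL s z))
      (hR : s.n z < s.k (par z) → SpWin w K S (playR s z))
      (hN : s.k false + s.k true < K → SpWin w K S (playN s z d)) :
      SpWin w K S s

end Pool.Agent.Helper80.Tok
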