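import Pool.Agent.Helper80.Tok.Legal

set_option autoImplicit false

namespace Pool.Agent.Helper80.Tok

/-- the tokens of a play with their colours, newest first -/
def col (A : List ℝ → ℕ) : List ℝ → List (ℝ × ℕ)
  | [] => []
  | x :: h => (x, A (x :: h)) :: col A h

noncomputable def load (L : List (ℝ × ℕ)) (t : ℝ) : ℕ :=
  L.countP (fun p => decide (t < p.1 ∧ p.1 < t + 1))

theorem load_cons (p : ℝ × ℕ) (L : List (ℝ × ℕ)) (t : ℝ) :
    load (p :: L) t = load L t + if t < p.1 ∧ p.1 < t + 1 then 1 else 0 := by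
  unfold load
  rw [List.countP_cons]
  simp

theorem load_col (A : List ℝ → ℕ) (h : List ℝ) (t : ℝ) : load (col A h) t = loadR h t := by
  induction h with
  | nil => rfl
  | cons x h ih =>
    rw [col, load_cons, ih]
    unfold loadR
    rw [List.countP_cons]
    simp

theorem load_mono {L : List (ℝ × ℕ)} {t t' : ℝ}
    (h : ∀ p ∈ L, t < p.1 → p.1 < t + 1 → t' < p.1 ∧ p.1 < t' + 1) : load L t ≤ load L t' := by
  unfold load
  apply List.countP_mono_left
  intro p hp hp'
  simp only [decide_eq_true_eq] at hp' ⊢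
  exact h p hp hp'.1 hp'.2

structure Inv (w S : ℕ) (L : List (ℝ × ℕ)) (f ε : ℝ) (s : St) (π : ℕ → Bool) : Prop where
  pos : 0 < ε
  le : ε ≤ 1
  sep : ∀ p ∈ L, ∀ m : ℤ, ε ≤ |p.1 - (m + f)|
  cnt : ∀ e : ℕ, load L (e + f) = s.n e
  lev : ∀ z : ℕ, 1 ≤ z → z ≤ S → ∀ t : ℝ, t < z + f → z + f < t + 1 → load L t ≤ s.M z
  par : ∀ p ∈ L, ∀ e : ℕ, e + f < p.1 → p.1 < e + f + 1 → π p.2 = Tok.par e
  dis : L.Pairwise (fun p q => |p.1 - q.1| < 1 → p.2 ≠ q.2)
  col : ∀ b, (((L.map Prod.snd).toFinset).filter (fun c => π c = b)).card = s.k b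
  win : ∀ t, load L t ≤ w

theorem Inv.sepN {w S : ℕ} {L : List (ℝ × ℕ)} {f ε : ℝ} {s : St} {π : ℕ → Bool}
    (I : Inv w S L f ε s π) {p : ℝ × ℕ} (hp : p ∈ L) (m : ℤ) :
    p.1 ≤ m + f - ε ∨ m + f + ε ≤ p.1 := by
  have h := I.sep p hp m
  rcases le_abs.mp h with h1 | h1
  · right; linarith
  · left; linarith

theorem Inv.sepZ {w S : ℕ} {L : List (ℝ × ℕ)} {f ε : ℝ} {s : St} {π : ℕ → Bool}
    (I : Inv w S L f ε s π) {p : ℝ × ℕ} (hp : p ∈ L) (m : ℕ) :
    p.1 ≤ m + f - ε ∨ m + f + ε ≤ p.1 := by
  have h := I.sepN hp (m : ℤ)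
  push_cast at h
  exact h

theorem Inv.compare {w S : ℕ} {L : List (ℝ × ℕ)} {f ε : ℝ} {s : St} {π : ℕ → Bool}
    (I : Inv w S L f ε s π) {f' : ℝ} (hf : |f' - f| ≤ ε / 2) (z : ℕ) {t : ℝ}
    (h1 : t < z + f') (h2 : z + f' < t + 1) :
    ∃ t', t' < z + f ∧ z + f < t' + 1 ∧ load L t ≤ load L t' := by
  have hpos := I.pos
  rw [abs_le] at hf
  by_cases h3 : t < z + f
  · by_cases h4 : z + f < t + 1
    · exact ⟨t, h3, h4, le_rfl⟩
    · push Not at h4
      refine ⟨z + f + ε / 4 - 1, by linarith [I.le], by linarith, load_mono ?_⟩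
      intro p hp hp1 hp2
      have h5 := I.sepN hp ((z : ℤ) - 1)
      push_cast at h5
      rcases h5 with h5 | h5
      · linarith
      · constructor <;> linarith
  · push Not at h3
    refine ⟨z + f - ε / 4, by linarith, by linarith [I.le], load_mono ?_⟩
    intro p hp hp1 hp2
    have h5 := I.sepN hp ((z : ℤ) + 1)
    push_cast at h5
    rcases h5 with h5 | h5
    · constructor <;> linarith
    · linarith

theorem Inv.edge_iff {w S : ℕ} {L : List (ℝ × ℕ)} {f ε : ℝ} {s : St} {π : ℕ → Bool}
    (I : Inv w S L f ε s π) {f' : ℝ} (hf : |f' - f| ≤ ε / 2) {p : ℝ × ℕ} (hp : p ∈ L) (e : ℕ) :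
    (e + f' < p.1 ∧ p.1 < e + f' + 1) ↔ (e + f < p.1 ∧ p.1 < e + f + 1) := by
  have hpos := I.pos
  rw [abs_le] at hf
  have h1 := I.sepZ hp e
  have h2 := I.sepN hp ((e : ℤ) + 1)
  push_cast at h2
  constructor
  · rintro ⟨h3, h4⟩
    constructor
    · rcases h1 with h1 | h1 <;> linarith
    · rcases h2 with h2 | h2 <;> linarith
  · rintro ⟨h3, h4⟩
    constructor
    · rcases h1 with h1 | h1 <;> linarith
    · rcases h2 with h2 | h2 <;> linarith

theorem Inv.edge_load {w S : ℕ} {L : List (ℝ × ℕ)} {f ε : ℝ} {s : St} {π : ℕ → Bool}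
    (I : Inv w S L f ε s π) {f' : ℝ} (hf : |f' - f| ≤ ε / 2) (e : ℕ) :
    load L (e + f') = s.n e := by
  rw [← I.cnt e]
  apply le_antisymm
  · apply load_mono
    intro p hp h1 h2
    exact (I.edge_iff hf hp e).mp ⟨h1, h2⟩
  · apply load_mono
    intro p hp h1 h2
    exact (I.edge_iff hf hp e).mpr ⟨h1, h2⟩

/-- general step -/
theorem Inv.step {w S : ℕ} {L : List (ℝ × ℕ)} {f ε : ℝ} {s : St} {π : ℕ → Bool}
    (I : Inv w S L f ε s π) {z : ℕ} (h1 : 1 ≤ z) (hS : z ≤ S) (hz : s.M z < w) {c : ℕ}
    (hc : ∀ p ∈ L, |(z + f) - p.1| < 1 → c ≠ p.2) {δ : ℝ} (hδ : |δ| = ε / 2) {e0 : ℕ}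
    (he1 : (e0 : ℝ) + (f + δ) < z + f) (he2 : (z : ℝ) + f < e0 + (f + δ) + 1)
    {s' : St} {π' : ℕ → Bool}
    (hn : s'.n = Function.update s.n e0 (s.n e0 + 1))
    (hM : ∀ y, s.M y ≤ s'.M y) (hMz : s.M z + 1 ≤ s'.M z)
    (hMo : ∀ y, 1 ≤ y → y ≤ S → y ≠ z → ∀ t : ℝ, t < y + (f + δ) → y + (f + δ) < t + 1 →
      t < z + f → z + f < t + 1 → load L t + 1 ≤ s'.M y)
    (hπc : π' c = Tok.par e0) (hπ : ∀ p ∈ L, π' p.2 = π p.2)
    (hk : ∀ b, ((((z + f, c) :: L).map Prod.snd).toFinset.filter (fun c => π' c = b)).card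
      = s'.k b) :
    Inv w S ((z + f, c) :: L) (f + δ) (ε / 4) s' π' := by
  have hpos := I.pos
  have hle := I.le
  have hf : |(f + δ) - f| ≤ ε / 2 := by rw [add_sub_cancel_left]; exact hδ.le
  refine ⟨by linarith, by linarith, ?_, ?_, ?_, ?_, ?_, hk, ?_⟩
  · -- sep
    intro p hp m
    rw [List.mem_cons] at hp
    have hδ2 := abs_le.mp hδ.le
    rcases hp with rfl | hp
    · simp only
      by_cases hm : (m : ℤ) = z
      · subst hm
        push_cast
        have : (z : ℝ) + f - (z + (f + δ)) = -δ := by ring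
        rw [this, abs_neg, hδ]
        linarith
      · rcases lt_or_gt_of_ne hm with h3 | h3
        · have h4 : (m : ℝ) + 1 ≤ z := by exact_mod_cast h3
          rw [le_abs]
          left
          linarith
        · have h4 : (z : ℝ) + 1 ≤ m := by exact_mod_cast h3
          rw [le_abs]
          right
          linarith
    · rcases I.sepN hp m with h3 | h3
      · rw [le_abs]; right; linarith
      · rw [le_abs]; left; linarith
  · -- cnt
    intro e
    rw [load_cons, I.edge_load hf e, hn]
    by_cases he : e = e0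
    · subst he
      rw [Function.update_self, if_pos ⟨he1, he2⟩]
    · have hno : ¬ ((e : ℝ) + (f + δ) < ((z : ℝ) + f, c).1 ∧
          ((z : ℝ) + f, c).1 < (e : ℝ) + (f + δ) + 1) := by
        rintro ⟨h3, h4⟩
        simp only at h3 h4
        rcases lt_or_gt_of_ne he with h5 | h5
        · have h6 : (e : ℝ) + 1 ≤ e0 := by exact_mod_cast h5
          linarith
        · have h6 : (e0 : ℝ) + 1 ≤ e := by exact_mod_cast h5
          linarith
      rw [Function.update_of_ne he, if_neg hno, add_zero]
  · -- lev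
    intro y hy1 hyS t ht1 ht2
    obtain ⟨t', h3, h4, h5⟩ := I.compare hf y ht1 ht2
    have h6 := I.lev y hy1 hyS t' h3 h4
    rw [load_cons]
    by_cases hin : t < (z : ℝ) + f ∧ (z : ℝ) + f < t + 1
    · rw [if_pos hin]
      by_cases hyz : y = z
      · subst hyz
        omega
      · exact hMo y hy1 hyS hyz t ht1 ht2 hin.1 hin.2
    · rw [if_neg hin]
      have := hM y
      omega
  · -- par
    intro p hp e hp1 hp2
    rw [List.mem_cons] at hp
    rcases hp with rfl | hp
    · simp only at hp1 hp2 ⊢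
      have he : e = e0 := by
        by_contra he
        rcases lt_or_gt_of_ne he with h5 | h5
        · have h6 : (e : ℝ) + 1 ≤ e0 := by exact_mod_cast h5
          linarith
        · have h6 : (e0 : ℝ) + 1 ≤ e := by exact_mod_cast h5
          linarith
      rw [he, hπc]
    · rw [hπ p hp]
      have := (I.edge_iff hf hp e).mp ⟨hp1, hp2⟩
      exact I.par p hp e this.1 this.2
  · -- dis
    rw [List.pairwise_cons]
    exact ⟨fun p hp => hc p hp, I.dis⟩
  · -- win
    intro t
    rw [load_cons]
    by_cases hin : t < (z : ℝ) + f ∧ (z : ℝ) + f < t + 1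
    · rw [if_pos hin]
      have := I.lev z h1 hS t hin.1 hin.2
      omega
    · rw [if_neg hin]
      have := I.win t
      omega

/-- the number of colours on an edge -/
theorem Inv.edge_lt {w S : ℕ} {L : List (ℝ × ℕ)} {f ε : ℝ} {s : St} {π : ℕ → Bool}
    (I : Inv w S L f ε s π) {e c : ℕ} (hcL : c ∈ L.map Prod.snd) (hπc : π c = Tok.par e)
    (hce : ∀ p ∈ L, e + f < p.1 → p.1 < e + f + 1 → c ≠ p.2) : s.n e < s.k (Tok.par e) := by
  classical
  rw [← I.cnt e, ← I.col (Tok.par e)]
  set E := L.filter (fun p => decide ((e : ℝ) + f < p.1 ∧ p.1 < (e : ℝ) + f + 1)) with hE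
  have hlen : load L (e + f) = E.length := by
    unfold load
    rw [List.countP_eq_length_filter]
  have hnd : (E.map Prod.snd).Nodup := by
    rw [List.Nodup, List.pairwise_map]
    have hp : E.Pairwise (fun p q => |p.1 - q.1| < 1 → p.2 ≠ q.2) := I.dis.sublist List.filter_sublist
    refine List.Pairwise.imp_of_mem ?_ hp
    intro p q hp hq hpq
    rw [hE, List.mem_filter] at hp hq
    simp only [decide_eq_true_eq] at hp hq
    apply hpq
    rw [abs_lt]
    constructor <;> linarith [hp.2.1, hp.2.2, hq.2.1, hq.2.2]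
  have hcard : load L (e + f) = (E.map Prod.snd).toFinset.card := by
    rw [hlen, List.toFinset_card_of_nodup hnd, List.length_map]
  rw [hcard]
  apply Finset.card_lt_card
  rw [Finset.ssubset_iff_of_subset]
  · refine ⟨c, ?_, ?_⟩
    · rw [Finset.mem_filter]
      exact ⟨List.mem_toFinset.mpr hcL, hπc⟩
    · intro hcE
      rw [List.mem_toFinset, List.mem_map] at hcE
      obtain ⟨p, hp, hpc⟩ := hcE
      rw [hE, List.mem_filter] at hp
      simp only [decide_eq_true_eq] at hp
      exact hce p hp.1 hp.2.1 hp.2.2 hpc.symm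
  · intro d hd
    rw [List.mem_toFinset, List.mem_map] at hd
    obtain ⟨p, hp, hpd⟩ := hd
    rw [hE, List.mem_filter] at hp
    simp only [decide_eq_true_eq] at hp
    rw [Finset.mem_filter, List.mem_toFinset, List.mem_map]
    refine ⟨⟨p, hp.1, hpd⟩, ?_⟩
    rw [← hpd]
    exact I.par p hp.1 e hp.2.1 hp.2.2

theorem hk_old {L : List (ℝ × ℕ)} {c : ℕ} (hcL : c ∈ L.map Prod.snd) (x : ℝ) (π : ℕ → Bool)
    (b : Bool) : ((((x, c) :: L).map Prod.snd).toFinset.filter (fun c => π c = b)).card =
      (((L.map Prod.snd).toFinset).filter (fun c => π c = b)).card := by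
  rw [List.map_cons, List.toFinset_cons, Finset.insert_eq_of_mem (List.mem_toFinset.mpr hcL)]

theorem hk_new {L : List (ℝ × ℕ)} {c : ℕ} (hcL : c ∉ L.map Prod.snd) (x : ℝ) (π : ℕ → Bool)
    (a b : Bool) : ((((x, c) :: L).map Prod.snd).toFinset.filter
      (fun c' => Function.update π c a c' = b)).card =
      (((L.map Prod.snd).toFinset).filter (fun c => π c = b)).card + if a = b then 1 else 0 := by
  have hc : c ∉ (L.map Prod.snd).toFinset := fun h => hcL (List.mem_toFinset.mp h)
  have h1 : ((L.map Prod.snd).toFinset).filter (fun c' => Function.update π c a c' = b) =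
      ((L.map Prod.snd).toFinset).filter (fun c => π c = b) := by
    apply Finset.filter_congr
    intro d hd
    have hdc : d ≠ c := fun h => hc (h ▸ hd)
    rw [Function.update_of_ne hdc]
  rw [List.map_cons, List.toFinset_cons, Finset.filter_insert, Function.update_self, h1]
  by_cases hab : a = b
  · rw [if_pos hab, if_pos hab, Finset.card_insert_of_notMem]
    intro h
    exact hc (Finset.mem_filter.mp h).1
  · rw [if_neg hab, if_neg hab, add_zero]

/-- the step to the left -/
theorem Inv.stepL {w S : ℕ} {L : List (ℝ × ℕ)} {f ε : ℝ} {s : St} {π : ℕ → Bool}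
    (I : Inv w S L f ε s π) {z : ℕ} (h1 : 1 ≤ z) (hS : z ≤ S) (hz : s.M z < w) {c : ℕ}
    (hc : ∀ p ∈ L, |(z + f) - p.1| < 1 → c ≠ p.2)
    {k' : Bool → ℕ} {π' : ℕ → Bool}
    (hπc : π' c = Tok.par (z - 1)) (hπ : ∀ p ∈ L, π' p.2 = π p.2)
    (hk : ∀ b, ((((z + f, c) :: L).map Prod.snd).toFinset.filter (fun c => π' c = b)).card
      = k' b) :
    Inv w S ((z + f, c) :: L) (f + ε / 2) (ε / 4)
      ⟨(playL s z).n, (playL s z).M, k'⟩ π' := by
  have hpos := I.pos
  have hle := I.le
  have hz1 : ((z - 1 : ℕ) : ℝ) = z - 1 := by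
    rw [Nat.cast_sub h1]; simp
  have hδ : |ε / 2| = ε / 2 := abs_of_pos (by linarith)
  refine I.step h1 hS hz hc hδ (e0 := z - 1) (by rw [hz1]; linarith) (by rw [hz1]; linarith) rfl
    ?_ ?_ ?_ hπc hπ hk
  · intro y
    simp only [playL]
    split_ifs with h2 h3
    · rw [h2]; omega
    · exact le_max_left _ _
    · exact le_rfl
  · simp only [playL, if_true]
    exact le_rfl
  · intro y hy1 hyS hyz t ht1 ht2 ht3 ht4
    have hyz1 : y + 1 = z := by
      rcases lt_or_gt_of_ne hyz with h5 | h5
      · by_contra h6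
        have h7 : y + 2 ≤ z := by omega
        have h8 : (y : ℝ) + 2 ≤ z := by exact_mod_cast h7
        linarith
      · have h6 : (z : ℝ) + 1 ≤ y := by exact_mod_cast h5
        linarith
    have hyz2 : (y : ℝ) + 1 = z := by exact_mod_cast hyz1
    have h9 : load L t ≤ s.n (z - 1) := by
      rw [← I.cnt (z - 1), hz1]
      apply load_mono
      intro p hp hp1 hp2
      have h5 := I.sepZ hp z
      constructor
      · linarith
      · rcases h5 with h5 | h5 <;> linarith
    simp only [playL]
    rw [if_neg hyz, if_pos hyz1]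
    exact le_trans (by omega) (le_max_right _ _)

/-- the step to the right -/
theorem Inv.stepR {w S : ℕ} {L : List (ℝ × ℕ)} {f ε : ℝ} {s : St} {π : ℕ → Bool}
    (I : Inv w S L f ε s π) {z : ℕ} (h1 : 1 ≤ z) (hS : z ≤ S) (hz : s.M z < w) {c : ℕ}
    (hc : ∀ p ∈ L, |(z + f) - p.1| < 1 → c ≠ p.2)
    {k' : Bool → ℕ} {π' : ℕ → Bool}
    (hπc : π' c = Tok.par z) (hπ : ∀ p ∈ L, π' p.2 = π p.2)
    (hk : ∀ b, ((((z + f, c) :: L).map Prod.snd).toFinset.filter (fun c => π' c = b)).card
      = k' b) :
    Inv w S ((z + f, c) :: L) (f + -(ε / 2)) (ε / 4)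
      ⟨(playR s z).n, (playR s z).M, k'⟩ π' := by
  have hpos := I.pos
  have hle := I.le
  have hδ : |-(ε / 2)| = ε / 2 := by rw [abs_neg]; exact abs_of_pos (by linarith)
  refine I.step h1 hS hz hc hδ (e0 := z) (by linarith) (by linarith) rfl
    ?_ ?_ ?_ hπc hπ hk
  · intro y
    simp only [playR]
    split_ifs with h2 h3
    · rw [h2]; omega
    · exact le_max_left _ _
    · exact le_rfl
  · simp only [playR, if_true]
    exact le_rfl
  · intro y hy1 hyS hyz t ht1 ht2 ht3 ht4
    have hyz1 : y = z + 1 := by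
      rcases lt_or_gt_of_ne hyz with h5 | h5
      · have h6 : (y : ℝ) + 1 ≤ z := by exact_mod_cast h5
        linarith
      · by_contra h6
        have h7 : z + 2 ≤ y := by omega
        have h8 : (z : ℝ) + 2 ≤ y := by exact_mod_cast h7
        linarith
    have hyz2 : (y : ℝ) = z + 1 := by exact_mod_cast hyz1
    have h9 : load L t ≤ s.n z := by
      rw [← I.cnt z]
      apply load_mono
      intro p hp hp1 hp2
      have h5 := I.sepZ hp z
      constructor
      · rcases h5 with h5 | h5 <;> linarith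
      · linarith
    simp only [playR]
    rw [if_neg hyz, if_pos hyz1]
    exact le_trans (by omega) (le_max_right _ _)

theorem Inv.win_cons {w S : ℕ} {L : List (ℝ × ℕ)} {f ε : ℝ} {s : St} {π : ℕ → Bool}
    (I : Inv w S L f ε s π) {z : ℕ} (h1 : 1 ≤ z) (hS : z ≤ S) (hz : s.M z < w) (c : ℕ) (t : ℝ) :
    load ((z + f, c) :: L) t ≤ w := by
  rw [load_cons]
  by_cases hin : t < (z : ℝ) + f ∧ (z : ℝ) + f < t + 1
  · rw [if_pos hin]
    have := I.lev z h1 hS t hin.1 hin.2
    omega
  · rw [if_neg hin]
    have := I.win t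
    omega

theorem col_length (A : List ℝ → ℕ) (h : List ℝ) : (col A h).length = h.length := by
  induction h with
  | nil => rfl
  | cons x h ih => simp [col, ih]

theorem mem_col {A : List ℝ → ℕ} {h : List ℝ} {p : ℝ × ℕ} (hp : p ∈ col A h) :
    ∃ i : Fin h.length, h.get i = p.1 ∧ colour A h i = p.2 := by
  induction h with
  | nil => simp [col] at hp
  | cons x h ih =>
    rw [col, List.mem_cons] at hp
    rcases hp with rfl | hp
    · exact ⟨⟨0, by simp⟩, rfl, rfl⟩
    · obtain ⟨i, h1, h2⟩ := ih hp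
      refine ⟨i.succ, ?_, ?_⟩
      · simpa using h1
      · simpa [colour] using h2

theorem colour_mem {A : List ℝ → ℕ} {h : List ℝ} (i : Fin h.length) :
    colour A h i ∈ (col A h).map Prod.snd := by
  induction h with
  | nil => exact i.elim0
  | cons x h ih =>
    rw [col, List.map_cons, List.mem_cons]
    rcases Fin.eq_zero_or_eq_succ i with rfl | ⟨j, rfl⟩
    · left; rfl
    · right
      have := ih j
      simpa [colour] using this

theorem image_colour (A : List ℝ → ℕ) (h : List ℝ) :
    Finset.univ.image (colour A h) = ((col A h).map Prod.snd).toFinset := by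
  ext c
  simp only [Finset.mem_image, Finset.mem_univ, true_and, List.mem_toFinset]
  constructor
  · rintro ⟨i, rfl⟩
    exact colour_mem i
  · intro hc
    rw [List.mem_map] at hc
    obtain ⟨p, hp, rfl⟩ := hc
    obtain ⟨i, _, h2⟩ := mem_col hp
    exact ⟨i, h2⟩

theorem bool_cases {z : ℕ} (h1 : 1 ≤ z) (b : Bool) : b = Tok.par (z - 1) ∨ b = Tok.par z := by
  have h2 : Tok.par z = !(Tok.par (z - 1)) := by
    unfold Tok.par
    rcases Nat.mod_two_eq_zero_or_one z with h | h
    · have h3 : (z - 1) % 2 = 1 := by omega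
      rw [h, h3]; rfl
    · have h3 : (z - 1) % 2 = 0 := by omega
      rw [h, h3]; rfl
  rw [h2]
  cases b <;> cases Tok.par (z - 1) <;> simp

theorem no_strategy {w K S : ℕ} {A : List ℝ → ℕ}
    (hA : ∀ h : List ℝ, (tokenGraph h).Colorable w →
      (∀ i j, (tokenGraph h).Adj i j → colour A h i ≠ colour A h j) ∧
      (Finset.univ.image (colour A h)).card ≤ K) {s : St} (hs : SpWin w K S s) :
    ∀ (h : List ℝ) (f ε : ℝ) (π : ℕ → Bool), ¬ Inv w S (col A h) f ε s π := by
  induction hs with
  | step s z d h1 hS hz hL hR hN ihL ihR ihN =>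
    intro h f ε π I
    have hpos := I.pos
    have hz1 : ((z - 1 : ℕ) : ℝ) = z - 1 := by
      rw [Nat.cast_sub h1]; simp
    set c := A ((z + f) :: h) with hcdef
    have hcol : col A ((z + f) :: h) = (z + f, c) :: col A h := rfl
    have hload : ∀ t, loadR ((z + f) :: h) t ≤ w := by
      intro t
      rw [← load_col A, hcol]
      exact I.win_cons h1 hS hz c t
    obtain ⟨hprop, hcard⟩ := hA _ (colorable_of_load hload)
    have hc : ∀ p ∈ col A h, |(z + f) - p.1| < 1 → c ≠ p.2 := by
      intro p hp hd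
      obtain ⟨i, hi1, hi2⟩ := mem_col hp
      have h2 := hprop ⟨0, by simp⟩ i.succ ⟨by
        intro h3
        have := congrArg Fin.val h3
        simp at this, by
        simpa [← hi1] using hd⟩
      intro h3
      apply h2
      have h4 : colour A ((z + f) :: h) i.succ = colour A h i := by simp [colour]
      rw [h4, hi2, ← h3]
      rfl
    by_cases hcL : c ∈ (col A h).map Prod.snd
    · rcases bool_cases h1 (π c) with hb | hb
      · have hlt := I.edge_lt (e := z - 1) hcL hb (by
          intro p hp hp1 hp2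
          rw [hz1] at hp1 hp2
          exact hc p hp (by rw [abs_lt]; constructor <;> linarith))
        have I' := I.stepL h1 hS hz hc (k' := s.k) (π' := π) hb (fun p _ => rfl)
          (fun b => by rw [hk_old hcL, I.col b])
        rw [← hcol] at I'
        exact ihL hlt _ _ _ _ I'
      · have hlt := I.edge_lt (e := z) hcL hb (by
          intro p hp hp1 hp2
          exact hc p hp (by rw [abs_lt]; constructor <;> linarith))
        have I' := I.stepR h1 hS hz hc (k' := s.k) (π' := π) hb (fun p _ => rfl)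
          (fun b => by rw [hk_old hcL, I.col b])
        rw [← hcol] at I'
        exact ihR hlt _ _ _ _ I'
    · have hK : s.k false + s.k true < K := by
        rw [image_colour, hcol, List.map_cons, List.toFinset_cons,
          Finset.card_insert_of_notMem (fun h => hcL (List.mem_toFinset.mp h))] at hcard
        have h2 : ((col A h).map Prod.snd).toFinset.card = s.k false + s.k true := by
          rw [← I.col false, ← I.col true,
            ← Finset.card_filter_add_card_filter_not (s := ((col A h).map Prod.snd).toFinset)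
              (fun c => π c = false)]
          congr 2
          apply Finset.filter_congr
          intro x _
          simp
        omega
      cases d with
      | true =>
        have I' := I.stepL h1 hS hz hc
          (k' := Function.update s.k (Tok.par (z - 1)) (s.k (Tok.par (z - 1)) + 1))
          (π' := Function.update π c (Tok.par (z - 1))) (Function.update_self _ _ _)
          (fun p hp => Function.update_of_ne (fun h3 => hcL (List.mem_map.mpr ⟨p, hp, h3⟩)) _ _)
          (fun b => by
            rw [hk_new hcL, I.col b]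
            by_cases hb : Tok.par (z - 1) = b
            · subst hb; simp
            · rw [if_neg hb, Function.update_of_ne (Ne.symm hb), add_zero])
        rw [← hcol] at I'
        exact ihN hK _ _ _ _ I'
      | false =>
        have I' := I.stepR h1 hS hz hc
          (k' := Function.update s.k (Tok.par z) (s.k (Tok.par z) + 1))
          (π' := Function.update π c (Tok.par z)) (Function.update_self _ _ _)
          (fun p hp => Function.update_of_ne (fun h3 => hcL (List.mem_map.mpr ⟨p, hp, h3⟩)) _ _)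
          (fun b => by
            rw [hk_new hcL, I.col b]
            by_cases hb : Tok.par z = b
            · subst hb; simp
            · rw [if_neg hb, Function.update_of_ne (Ne.symm hb), add_zero])
        rw [← hcol] at I'
        exact ihN hK _ _ _ _ I'

theorem inv_init (w S : ℕ) (A : List ℝ → ℕ) : Inv w S (col A []) 0 1 St.init (fun _ => false) := by
  refine ⟨by norm_num, le_rfl, ?_, ?_, ?_, ?_, ?_, ?_, ?_⟩
  · intro p hp; simp [col] at hp
  · intro e; simp [col, load, St.init]
  · intro z _ _ t _ _; simp [col, load]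
  · intro p hp; simp [col] at hp
  · simp [col]
  · intro b; simp [col, St.init]
  · intro t; simp [col, load]

/-- A win of Spoiler in the parity pointer game gives a lower bound for the on-line colouring of
unit interval graphs. -/
theorem not_achieves {w K S : ℕ} (hs : SpWin w K S St.init) : ¬ Achieves w K := by
  rintro ⟨A, hA⟩
  exact no_strategy hA hs [] 0 1 _ (inv_init w S A)

end Pool.Agent.Helper80.Tok
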