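import Pool.Agent.Helper80.Tok.Defs

set_option autoImplicit false

namespace Pool.Agent.Helper80.Tok

/-- number of points of `h` in the open unit interval starting at `t` -/
noncomputable def loadR (h : List ℝ) (t : ℝ) : ℕ := h.countP (fun x => decide (t < x ∧ x < t + 1))

theorem countP_eq_card (p : ℝ → Prop) [DecidablePred p] (h : List ℝ) :
    h.countP (fun x => decide (p x)) =
      (Finset.univ.filter (fun i : Fin h.length => p (h.get i))).card := by
  induction h with
  | nil => simp
  | cons a l ih =>
    rw [List.countP_cons, ih, Finset.card_filter, Finset.card_filter]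
    have h2 : (∑ i : Fin (a :: l).length, if p ((a :: l).get i) then 1 else 0) =
        (if p a then 1 else 0) + ∑ i : Fin l.length, if p (l.get i) then 1 else 0 :=
      Fin.sum_univ_succ (n := l.length) (fun i => if p ((a :: l).get i) then 1 else 0)
    rw [h2, add_comm]
    simp

/-- lexicographic order of the tokens by point and index -/
def lx (h : List ℝ) (j i : Fin h.length) : Prop :=
  h.get j < h.get i ∨ (h.get j = h.get i ∧ j < i)

theorem lx_trans {h : List ℝ} {a b c : Fin h.length} (h1 : lx h a b) (h2 : lx h b c) :
    lx h a c := by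
  rcases h1 with h1 | ⟨h1, h1'⟩ <;> rcases h2 with h2 | ⟨h2, h2'⟩
  · exact Or.inl (h1.trans h2)
  · exact Or.inl (h2 ▸ h1)
  · exact Or.inl (h1 ▸ h2)
  · exact Or.inr ⟨h1.trans h2, h1'.trans h2'⟩

theorem lx_irrefl {h : List ℝ} (a : Fin h.length) : ¬ lx h a a := by
  rintro (h1 | ⟨_, h1⟩)
  · exact lt_irrefl _ h1
  · exact lt_irrefl _ h1

theorem lx_total {h : List ℝ} {a b : Fin h.length} (hab : a ≠ b) : lx h a b ∨ lx h b a := by
  rcases lt_trichotomy (h.get a) (h.get b) with h1 | h1 | h1
  · exact Or.inl (Or.inl h1)
  · rcases lt_or_gt_of_ne hab with h2 | h2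
    · exact Or.inl (Or.inr ⟨h1, h2⟩)
    · exact Or.inr (Or.inr ⟨h1.symm, h2⟩)
  · exact Or.inr (Or.inl h1)

theorem lx_le {h : List ℝ} {a b : Fin h.length} (h1 : lx h a b) : h.get a ≤ h.get b := by
  rcases h1 with h1 | ⟨h1, _⟩
  · exact h1.le
  · exact h1.le

open Classical in
/-- rank of a token -/
noncomputable def rk (h : List ℝ) (i : Fin h.length) : ℕ :=
  (Finset.univ.filter (fun j => lx h j i)).card

open Classical in
theorem rk_lt {h : List ℝ} {a b : Fin h.length} (hab : lx h a b) : rk h a < rk h b := by
  apply Finset.card_lt_card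
  rw [Finset.ssubset_iff_of_subset]
  · exact ⟨a, by simp [hab], by simp [lx_irrefl]⟩
  · intro c hc
    simp only [Finset.mem_filter, Finset.mem_univ, true_and] at hc ⊢
    exact lx_trans hc hab

open Classical in
theorem aux {w : ℕ} {h : List ℝ} (hw : ∀ t, loadR h t ≤ w) {a b : Fin h.length}
    (hab : lx h a b) (hd : |h.get a - h.get b| < 1) : rk h b < rk h a + w := by
  by_contra hcon
  push Not at hcon
  have hle := lx_le hab
  have hd' : h.get b < h.get a + 1 := by
    rw [abs_lt] at hd
    linarith [hd.1]
  set t : ℝ := (h.get a + h.get b - 1) / 2 with ht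
  have h1 : t < h.get a := by rw [ht]; linarith
  have h2 : h.get b < t + 1 := by rw [ht]; linarith
  have hcard : w + 1 ≤ loadR h t := by
    unfold loadR
    rw [countP_eq_card]
    have hsub : insert b ((Finset.univ.filter (fun j => lx h j b)) \
        (Finset.univ.filter (fun j => lx h j a))) ⊆
        (Finset.univ.filter (fun i : Fin h.length => t < h.get i ∧ h.get i < t + 1)) := by
      intro c hc
      simp only [Finset.mem_insert, Finset.mem_sdiff, Finset.mem_filter, Finset.mem_univ,
        true_and] at hc ⊢
      rcases hc with rfl | ⟨hc1, hc2⟩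
      · exact ⟨by linarith, h2⟩
      · have hcb := lx_le hc1
        have hac : h.get a ≤ h.get c := by
          by_cases hca : c = a
          · rw [hca]
          · rcases lx_total hca with h3 | h3
            · exact absurd h3 hc2
            · exact lx_le h3
        exact ⟨by linarith, by linarith⟩
    have hc := Finset.card_le_card hsub
    rw [Finset.card_insert_of_notMem (by simp [lx_irrefl]), Finset.card_sdiff_of_subset] at hc
    · have : rk h a ≤ rk h b := (rk_lt hab).le
      unfold rk at hcon this
      omega
    · intro c hc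
      simp only [Finset.mem_filter, Finset.mem_univ, true_and] at hc ⊢
      exact lx_trans hc hab
  have := hw t
  omega

/-- At most `w` tokens in every open unit interval: the token graph is `w`-colourable. -/
theorem colorable_of_load {w : ℕ} {h : List ℝ} (hw : ∀ t, loadR h t ≤ w) :
    (tokenGraph h).Colorable w := by
  classical
  rcases Nat.eq_zero_or_pos w with rfl | hpos
  · have hem : IsEmpty (Fin h.length) := by
      constructor
      intro i
      have h1 := hw (h.get i - 1 / 2)
      unfold loadR at h1
      rw [countP_eq_card] at h1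
      have h2 : i ∈ (Finset.univ.filter (fun j : Fin h.length =>
          h.get i - 1 / 2 < h.get j ∧ h.get j < h.get i - 1 / 2 + 1)) := by
        simp only [Finset.mem_filter, Finset.mem_univ, true_and]
        constructor <;> linarith
      have := Finset.card_pos.mpr ⟨i, h2⟩
      omega
    exact ⟨SimpleGraph.Coloring.mk (fun i => (hem.false i).elim) (fun {i} => (hem.false i).elim)⟩
  · have hne : ∀ a b, lx h a b → |h.get a - h.get b| < 1 → rk h a % w ≠ rk h b % w := by
      intro a b hab hd heq
      have h1 := aux hw hab hd
      have h2 := rk_lt hab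
      have h3 : (rk h b - rk h a) % w = 0 := Nat.sub_mod_eq_zero_of_mod_eq heq.symm
      have h4 : rk h b - rk h a < w := by omega
      rw [Nat.mod_eq_of_lt h4] at h3
      omega
    refine ⟨SimpleGraph.Coloring.mk (fun i => ⟨rk h i % w, Nat.mod_lt _ hpos⟩) ?_⟩
    intro a b hab heq
    have heq' : rk h a % w = rk h b % w := by simpa using heq
    rcases lx_total hab.1 with h1 | h1
    · exact hne a b h1 hab.2 heq'
    · exact hne b a h1 (by rw [abs_sub_comm]; exact hab.2) heq'.symm

end Pool.Agent.Helper80.Tok
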